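import Pool.Agent.Lib.MP_fdbf44_an.OdG

/-!
# Polygonal almost everywhere 3-divisions of the sphere whose rotations have only dense orbits

`E3` is Euclidean space of dimension three, `S2` its unit sphere, `mu` the surface measure of `S2`,
`LI` the type of the linear isometries of `E3`. `Rot ρ`: the determinant of the matrix `ent ρ` of `ρ`
is one. `pcs ρ σ A` are the three sets `A`, `ρ A`, `σ A`. `Dv ρ σ A`: the set `A` is measurable for the
completed surface measure (on the sphere) and almost every point of the sphere lies in exactly one of
`A`, `ρ A`, `σ A`. `Lf` is the type of linear forms; `Cells U A`: whether `x` is in `A` depends only on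
the signs of the forms of `U` at `x` (`SameSigns`); `DvOff U ρ σ A`: every point of the sphere at which
no form of `U` vanishes lies in exactly one of `A`, `ρ A`, `σ A`; `DenseOrb ρ σ`: every orbit of the
group generated by `ρ` and `σ` is dense in the sphere.

Construction. Let `r` be the rotation by `α = π - π / m` about the vertical axis and `k` the half turn
about an axis which makes the angle `φ / 2` with it, where `cos φ (1 - cos α) = cos α`; then `a = r k` has
order three. Let `T` be the set of the points `x` above the equator such that `a x` and `a² x` are higher
than `x`, and let `R` be the ring of the images of `T` under the powers of `r`. Let `D` be the set of the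
points above the equator outside `R`, together with the antipodes of the points of `R`. Then `D` is
invariant under `r`, it contains exactly one of two antipodal points, and (key estimate) no three points
`x`, `a x`, `a² x` in general position are all in `D`, hence none are all outside `D`. So the set
`A = {x | x ∈ D ↔ a x ∈ D}` contains exactly one of `x`, `a x`, `a² x`, and `k A = A`, so that
`r A = a A`. The sets `A`, `r A`, `a² A` are the three pieces. The density of the orbits for `m ≥ 7` is
proved by descent on the distance to the orbit of the pole, with rotations by `2 π / m`.
-/

open MeasureTheory Metric Set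

namespace Pool.Agent.Results.MP_fdbf44_an.DenseOrbits

open Pool.Agent.Lib.MP_fdbf44_an

/-- **Polygonal divisions with dense orbits.** For every odd `m ≥ 7` there are rotations `ρ` of order `m`
and `σ` of order three, a set `A` and finitely many planes through the origin (the zeros of the linear
forms `l ∈ U`) such that `A` is a union of cells of the arrangement of these planes, every point of the
sphere outside these planes lies in exactly one of `A`, `ρ A`, `σ A` (so that this holds almost
everywhere), and every orbit of the group generated by `ρ` and `σ` is dense in the sphere. -/
theorem result (m : ℕ) (hm : Odd m) (h7 : 7 ≤ m) :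
    ∃ (ρ σ : LI) (A : Set E3) (U : Finset Lf),
      Rot ρ ∧ Rot σ ∧ orderOf ρ = m ∧ orderOf σ = 3 ∧ (∀ l ∈ U, l ≠ 0) ∧ Cells U A ∧
      DvOff U ρ σ A ∧ Dv ρ σ A ∧ DenseOrb ρ σ := by
  obtain ⟨α, φ, h⟩ := Ang.exists hm (by omega : 3 ≤ m)
  refine ⟨Rz α, az α φ ^ 2, Aa α φ, Uf m α φ, Rot_Rz α, Rot_az, h.order, h.order3,
    fun l hl => h.Uf_ne hl, fun x y hs => h.cells hs, fun x hx => h.dv_pt (h.gn hx), h.dv, ?_⟩
  intro x y ε hε
  exact h.dense h7 (mem_sphere_zero_iff_norm.1 x.2) (mem_sphere_zero_iff_norm.1 y.2) hε

end Pool.Agent.Results.MP_fdbf44_an.DenseOrbits
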