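import Pool.Agent.Lib.MP_fdbf44_an.Inf

/-!
# No measurable 3-division of the sphere with a rotation of order three

`E3` is Euclidean space of dimension three, `S2` its unit sphere, `mu` the surface measure of `S2`,
`LI` the type of the linear isometries of `E3`. `NM A`: the set `A` is measurable for the completed
surface measure (on the sphere). `pcs R σ A` are the three sets `A`, `R A`, `σ A`.

Proof: the disjointness of `A`, `R A`, `σ A` and `R ^ 3 = 1` give `R² A ⊆ σ A`, that is `τ A ⊆ A` for
`τ = σ⁻¹ R²`. The fixed points `u` of `R` are not in `A`, but `τ u` is in `A`, hence `τ ^ n u` for all
`n ≥ 1`, so `τ` has infinite order. On the other hand `τ A = A` up to a null set, and a piece of a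
measurable division has no symmetry of infinite order: otherwise it would be invariant under all
rotations about an axis `u` up to null sets, and so would be the other pieces (axes `R u`, `σ u`), and
looking at density points one sees that the pieces do not cover the circumcentre of the axes.
-/

open MeasureTheory Metric Set

namespace Pool.Agent.Results.MP_fdbf44_an.OrderThree

open Pool.Agent.Lib.MP_fdbf44_an

/-- **No order three.** Let `R`, `σ` be linear isometries with `R ^ 3 = 1` and let `A` be a measurable
subset of the sphere. Then it is not the case that every point of the sphere lies in exactly one of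
`A`, `R A`, `σ A`. -/
theorem result (R σ : LI) (A : Set E3) (hR : R ^ 3 = 1) (hA : NM A) :
    ¬ ∀ x : S2, ∃! i : Fin 3, (x : E3) ∈ pcs R σ A i :=
  fun h => no_three hR hA h

end Pool.Agent.Results.MP_fdbf44_an.OrderThree
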