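import Pool.Agent.Lib.MP_fdbf44_an.Stm

/-!
# Measurable 3-division of the sphere by rational rotations

`E3` is Euclidean space of dimension three, `S2` its unit sphere, `mu` the surface measure of `S2`,
`LI` the type of the linear isometries of `E3`, `ent ρ i k` the entries of the matrix of `ρ`.
`Dv ρ σ A`: the set `A` is measurable for the surface measure (on the sphere) and almost every
point of the sphere lies in exactly one of `A`, `ρ A`, `σ A`. `K` is a field of real numbers with an
embedding `j` into the field of the 2-adic numbers (for instance `K = ℚ`), and `Res j ρ p`: the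
matrix of `ρ` has entries in `K` which are 2-adic integers, and modulo two it is the matrix of the
permutation `p`.

Proof of the necessary condition: with `f = 1_A - 1/3`, the functional `p ↦ ∫ f p` on the polynomials
kills the image of `T = 1 + (∘ ρ) + (∘ σ)`. If `1`, `ρ`, `σ` are not pairwise distinct modulo two,
then `T` is invertible modulo two on the polynomials of each degree, so by Nakayama's lemma the
functional vanishes, and `f = 0` almost everywhere, which is absurd.
-/

open MeasureTheory Metric Set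

namespace Pool.Agent.Results.MP_fdbf44_an.RationalRotations

open Pool.Agent.Lib.MP_fdbf44_an

noncomputable section

/-- The matrix of `ρ` has entries in `K` which are 2-adic integers (under `j`), and the entry at
`(i, k)` is a 2-adic unit exactly if `i = p k`: modulo two it is the matrix of `p`. -/
def Res {K : Subfield ℝ} (j : K →+* ℚ_[2]) (ρ : LI) (p : Equiv.Perm (Fin 3)) : Prop :=
  ∃ M : Matrix (Fin 3) (Fin 3) K, ∀ i k, ((M i k : K) : ℝ) = ent ρ i k ∧
    ‖j (M i k)‖ ≤ 1 ∧ (‖j (M i k)‖ = 1 ↔ i = p k)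

theorem rot_gp (p : Equiv.Perm (Fin 3)) : Rot (gp p) := by
  unfold Rot
  have h1 : ent (gp p) = (mp p).map (algebraMap ℚ ℝ) := by
    funext i k
    exact (mp_isMat p i k).symm
  have h2 := (RingHom.map_det (algebraMap ℚ ℝ) (mp p)).symm
  rw [RingHom.mapMatrix_apply] at h2
  rw [h1, h2, mp_det, map_one]

theorem res_gp {K : Subfield ℝ} (j : K →+* ℚ_[2]) (p : Equiv.Perm (Fin 3)) : Res j (gp p) p := by
  refine ⟨fun i k => ((mp p i k : ℚ) : K), fun i k => ?_⟩
  obtain ⟨h1, h2⟩ := mp_odd p i k
  have h3 : ‖((mp p i k : ℚ) : ℚ_[2])‖ ≤ 1 := by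
    have h4 : ((mp p i k : ℚ) : ℚ_[2]) = (((mp p i k).num : ℤ) : ℚ_[2]) := by
      have h5 := congrArg (fun y : ℚ => (y : ℚ_[2])) (Rat.mul_den_eq_num (mp p i k))
      rw [h1, Nat.cast_one, mul_one] at h5
      push_cast at h5
      exact h5
    rw [h4]
    exact Padic.norm_int_le_one _
  refine ⟨?_, ?_, ?_⟩
  · have h4 := mp_isMat p i k
    rw [eq_ratCast (algebraMap ℚ ℝ)] at h4
    exact (map_ratCast K.subtype (mp p i k)).trans h4
  · rw [map_ratCast]
    exact h3
  · rw [map_ratCast, odd_num h3]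
    exact h2

/-- **Rotations modulo two.** Let `K` be a field of real numbers with an embedding `j` into the field
of the 2-adic numbers. If `ρ`, `σ` are linear isometries with entries in `K` and almost every point
of the sphere lies in exactly one of `A`, `ρ A`, `σ A` for a measurable set `A`, then `ρ`, `σ` are
modulo two the matrices of permutations `p`, `q` such that `1`, `p`, `q` are pairwise distinct; and
all pairs `p`, `q` of such permutations occur, with rotations `ρ`, `σ`. -/
theorem result (K : Subfield ℝ) (j : K →+* ℚ_[2]) :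
    (∀ (ρ σ : LI) (A : Set E3), (∀ i k, ent ρ i k ∈ K ∧ ent σ i k ∈ K) → Dv ρ σ A →
      ∃ p q : Equiv.Perm (Fin 3), Res j ρ p ∧ Res j σ q ∧ p ≠ 1 ∧ q ≠ 1 ∧ p ≠ q) ∧
    (∀ p q : Equiv.Perm (Fin 3), p ≠ 1 → q ≠ 1 → p ≠ q →
      ∃ (ρ σ : LI) (A : Set E3), Rot ρ ∧ Rot σ ∧ Res j ρ p ∧ Res j σ q ∧ Dv ρ σ A) := by
  refine ⟨fun ρ σ A h1 hA => ?_, fun p q h1 h2 h3 => ?_⟩
  · obtain ⟨p, q, a1, a2, a3, a4⟩ := two_adic j (M := fun i k => (⟨ent ρ i k, (h1 i k).1⟩ : K))
      (N := fun i k => (⟨ent σ i k, (h1 i k).2⟩ : K)) (fun i k => rfl) (fun i k => rfl) hA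
    exact ⟨p, q, ⟨_, fun i k => ⟨rfl, (a4 i k).1, (a4 i k).2.2.1⟩⟩,
      ⟨_, fun i k => ⟨rfl, (a4 i k).2.1, (a4 i k).2.2.2⟩⟩, a1, a2, a3⟩
  · obtain ⟨A, -, hA⟩ := sharp h1 h2 h3
    exact ⟨gp p, gp q, A, rot_gp p, rot_gp q, res_gp j p, res_gp j q, hA⟩

end

end Pool.Agent.Results.MP_fdbf44_an.RationalRotations
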