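import Pool.Agent.Lib.MP_fdbf44_an.Stm

/-!
# A criterion with residues for the division of the sphere by two rotations

`E3` is Euclidean space of dimension three, `S2` its unit sphere, `mu` the surface measure of `S2`,
`LI` the type of the linear isometries of `E3`, `ent ρ i k` the entries of the matrix of `ρ`,
`mv ρ x` the point `ρ x` of the sphere. `Dv ρ σ A`: `A` is measurable for the surface measure (on the
sphere) and almost every point of the sphere lies in exactly one of `A`, `ρ A`, `σ A`.

Let the matrices of `ρ`, `σ` have their entries in the subring `R` of `ℝ`, let `φ` be a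
homomorphism of `R` onto a nontrivial commutative ring `F`, and let `M`, `N` be the images of the two
matrices. Assume that `1 + [M] + [N]` is a unit of the monoid ring over `F` of the `3 × 3` matrices,
or that `M` and `N` lie in a finite `p`-group of matrices (`PCond`) for a prime `p ≠ 3` which vanishes
in `F`. Then `f + f ∘ ρ⁻¹ + f ∘ σ⁻¹ = 0` (almost everywhere) has no nonzero solution in `L²` of the
sphere, so that there is no measurable division of the sphere into `A`, `ρ A`, `σ A`, even up to a
null set.
-/

open MeasureTheory Metric Set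

namespace Pool.Agent.Results.MP_fdbf44_an.ResidueCriterion

open Pool.Agent.Lib.MP_fdbf44_an

noncomputable section

/-- `1 + [M] + [N]` is a unit of the monoid ring over `F` of the `3 × 3` matrices over `F`. -/
def UnitCond {F : Type} [CommRing F] (M N : Matrix (Fin 3) (Fin 3) F) : Prop :=
  IsUnit (1 + MonoidAlgebra.single M 1 + MonoidAlgebra.single N 1 :
    MonoidAlgebra F (Matrix (Fin 3) (Fin 3) F))

/-- `M` is the image under `φ` of the matrix of `ρ`, whose entries are in `R`. -/
def Red {R : Subring ℝ} {F : Type} [CommRing F] (φ : R →+* F) (ρ : LI)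
    (M : Matrix (Fin 3) (Fin 3) F) : Prop :=
  ∀ i k, ∃ h : ent ρ i k ∈ R, φ ⟨ent ρ i k, h⟩ = M i k

/-- The equation `f + f ∘ ρ⁻¹ + f ∘ σ⁻¹ = 0` has only the zero solution in `L²` of the sphere. -/
def NoSol (ρ σ : LI) : Prop :=
  ∀ f : S2 → ℝ, MemLp f 2 mu → (∀ᵐ x ∂mu, f x + f (mv ρ.symm x) + f (mv σ.symm x) = 0) →
    f =ᵐ[mu] 0

/-- **The criterion.** -/
theorem result (R : Subring ℝ) (F : Type) [CommRing F] [Nontrivial F] (φ : R →+* F)
    (hφ : Function.Surjective φ) (ρ σ : LI) (M N : Matrix (Fin 3) (Fin 3) F)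
    (hM : Red φ ρ M) (hN : Red φ σ N) (h : UnitCond M N ∨ PCond M N) :
    NoSol ρ σ ∧ ∀ A : Set E3, ¬ Dv ρ σ A := by
  have hinj : Function.Injective (algebraMap R ℝ) := Subtype.val_injective
  choose hM1 hM2 using hM
  choose hN1 hN2 using hN
  have hMM : IsMat ρ (fun i k => (⟨ent ρ i k, hM1 i k⟩ : R)) := fun i k => rfl
  have hNN : IsMat σ (fun i k => (⟨ent σ i k, hN1 i k⟩ : R)) := fun i k => rfl
  have eM : Matrix.map (fun i k => (⟨ent ρ i k, hM1 i k⟩ : R)) φ = M := by
    ext i k
    exact hM2 i k
  have eN : Matrix.map (fun i k => (⟨ent σ i k, hN1 i k⟩ : R)) φ = N := by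
    ext i k
    exact hN2 i k
  have hs : Function.Surjective (Top M N) := by
    rcases h with h | h
    · exact Top_surj_of_unit h
    · exact Top_surj_of_PCond h
  rw [← eM, ← eN] at hs
  refine ⟨fun f hf h0 => crit φ hφ hinj hMM hNN hs hf h0, crit_set φ hφ hinj hMM hNN hs⟩

end

end Pool.Agent.Results.MP_fdbf44_an.ResidueCriterion
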